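import Pool.Agent.H41.CP.Stmts

/-!
# Reductions for vertices of degree three and adjacent vertices of degree four
(`S_G1`, `S_G2`, project CP of helper41)
-/

set_option autoImplicit false

namespace Pool.Agent.H102.CP

open Finset Pool.Agent.H41.CP

theorem ext_one {V : Type} [DecidableEq V] (G : SimpleGraph V) [DecidableRel G.Adj]
    (σ : V → V → P6) (hσ : ∀ u v, G.Adj u v → σ v u = (σ u v)⁻¹) (W : Finset V) (v : V)
    (φ : V → P6) (hφ : Packs G σ (W.erase v) φ) (s : P6)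
    (hs : ∀ u ∈ nb G W v, ∀ x, s x ≠ (σ u v * φ u) x) : Packs G σ W (Function.update φ v s) := by
  intro a ha b hb hab i
  by_cases hav : a = v
  · subst hav
    have hba : b ≠ a := hab.ne'
    rw [Function.update_self, Function.update_of_ne hba, hσ b a hab.symm]
    intro h
    have h1 := hs b (mem_filter.2 ⟨hb, hab⟩) i
    apply h1
    rw [Equiv.Perm.mul_apply, h]
    simp
  · by_cases hbv : b = v
    · subst hbv
      rw [Function.update_self, Function.update_of_ne hav]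
      exact hs a (mem_filter.2 ⟨ha, hab.symm⟩) i
    · rw [Function.update_of_ne hav, Function.update_of_ne hbv]
      exact hφ a (mem_erase.2 ⟨hav, ha⟩) b (mem_erase.2 ⟨hbv, hb⟩) hab i

theorem pad3 {V : Type} (s : Finset V) (hs : s.card ≤ 3) (f : V → P6) :
    ∃ H : Fin 3 → P6, ∀ u ∈ s, ∃ i, H i = f u := by
  refine ⟨fun i => (s.toList.map f).getD i 1, fun u hu => ?_⟩
  obtain ⟨k, hk, hku⟩ := List.getElem_of_mem (mem_toList.2 hu)
  have hk' : k < s.card := by rwa [length_toList] at hk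
  refine ⟨⟨k, by omega⟩, ?_⟩
  simp [List.getD_eq_getElem?_getD, hk', hku]

theorem g1 (hh : S_HALL3) : S_G1 := by
  intro V _ G _ σ hσ W v hv hd φ hφ
  obtain ⟨H, hH⟩ := pad3 (nb G W v) hd (fun u => σ u v * φ u)
  obtain ⟨s, hs, -, -⟩ := hh H 0 0 0 0
  refine ⟨_, ext_one G σ hσ W v φ hφ s fun u hu x => ?_⟩
  obtain ⟨i, hi⟩ := hH u hu
  rw [← hi]
  exact hs i x

theorem g2 (hh : S_HALL3) (h2 : S_TWO) : S_G2 := by
  intro V _ G _ σ hσ W u w hu hw huw hdu hdw φ hφ
  have huw' : u ≠ w := huw.ne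
  have hcw : ((nb G W w).erase u).card ≤ 3 := by
    have hm : u ∈ nb G W w := mem_filter.2 ⟨hu, huw.symm⟩
    have h4 : (nb G W w).card = 4 := hdw
    rw [card_erase_of_mem hm, h4]
  have hcu : ((nb G W u).erase w).card ≤ 3 := by
    have hm : w ∈ nb G W u := mem_filter.2 ⟨hw, huw⟩
    have h4 : (nb G W u).card = 4 := hdu
    rw [card_erase_of_mem hm, h4]
  obtain ⟨F, hF⟩ := pad3 _ hcw (fun x => σ x w * φ x)
  obtain ⟨H, hH⟩ := pad3 _ hcu (fun x => σ x u * φ x)
  obtain ⟨a, b, ca, cb, hab⟩ := h2 F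
  obtain ⟨s, hs, hsa, hsb⟩ := hh H a b ((σ u w)⁻¹ ca) ((σ u w)⁻¹ cb)
  have h1 : Packs G σ (W.erase w) (Function.update φ u s) := by
    apply ext_one G σ hσ (W.erase w) u φ
    · rw [erase_right_comm]; exact hφ
    · intro x hx y
      obtain ⟨hx1, hx2⟩ := mem_filter.1 hx
      obtain ⟨hxw, hxW⟩ := mem_erase.1 hx1
      obtain ⟨i, hi⟩ := hH x (mem_erase.2 ⟨hxw, mem_filter.2 ⟨hxW, hx2⟩⟩)
      rw [← hi]
      exact hs i y
  have hnb : ¬ Bad F (σ u w * s) := by
    intro hbad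
    rcases hab _ hbad with h | h
    · apply hsa
      rw [← h]; simp
    · apply hsb
      rw [← h]; simp
  unfold Bad at hnb
  rw [not_not] at hnb
  obtain ⟨s', hs'⟩ := hnb
  refine ⟨_, ext_one G σ hσ W w _ h1 s' fun x hx y => ?_⟩
  obtain ⟨hx1, hx2⟩ := mem_filter.1 hx
  by_cases hxu : x = u
  · subst hxu
    rw [Function.update_self]
    exact (hs' y).1
  · rw [Function.update_of_ne hxu]
    obtain ⟨i, hi⟩ := hF x (mem_erase.2 ⟨hxu, hx⟩)
    rw [← hi]
    exact (hs' y).2 i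

end Pool.Agent.H102.CP
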